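import Pool.Agent.P.MP_531d8e_lc.CMain

open Pool.Agent.P.MP_531d8e_lc N68a2faeb in
theorem Pool.Agent.Results.MP_531d8e_lc.Convex.result :
    ∀ L ∈ NP, ∃ f : List Bool → List (ℤ × ℤ) × ℕ, IsPolyTime f ∧ ∀ x,
      (gridGraph (f x).1.toFinset).Connected ∧ Solid (f x).1.toFinset ∧
        ColConvex (f x).1.toFinset ∧ RowConvex (f x).1.toFinset ∧
        (L x = true ↔ HasTour (f x).1.toFinset (f x).2) :=
  Pool.Agent.P.MP_531d8e_lc.main_convex

/- Q1 itself (connected solid grid graphs): drop the two convexity conjuncts. -/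
open Pool.Agent.P.MP_531d8e_lc N68a2faeb in
theorem Pool.Agent.Results.MP_531d8e_lc.Convex.q1_instance :
    ∀ L ∈ NP, ∃ f : List Bool → List (ℤ × ℤ) × ℕ, IsPolyTime f ∧ ∀ x,
      (gridGraph (f x).1.toFinset).Connected ∧ Solid (f x).1.toFinset ∧
        (L x = true ↔ HasTour (f x).1.toFinset (f x).2) := fun L hL =>
  (Pool.Agent.Results.MP_531d8e_lc.Convex.result L hL).imp fun _ h =>
    ⟨h.1, fun x => ⟨(h.2 x).1, (h.2 x).2.1, (h.2 x).2.2.2.2⟩⟩
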